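import Pool.Agent.H94.G4T.M05
import Pool.Agent.H94.G4T.M20
import Pool.Agent.H94.G4T.M27

/-!
# G3 P Ahl: the Ahlfors lemma for `p`

If `‖h'‖ ≤ H` on the disc of radius `r` then `p (F z) (F' z) ≤ (C₁ (1/r + H))^m` at the centre.

Plan.  Put `t = r / 2` and `w ζ = pf p F ζ * (t^2 - ‖ζ - z‖^2)^m`, continuous on `closedBall z t` (`hP.cont`), `0` on the boundary, `0 ≤ w`.  Let `ζ₀` be a maximum point on the compact
disc.  If `w ζ₀ = 0` then `pf p F z = 0`.  Otherwise `ζ₀` is interior, `w` has a local maximum there, and `Sub w ζ₀ c` with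
`c = fs^2/2 - C ‖h' ζ₀‖^2 - m t^2/(t^2 - ‖ζ₀ - z‖^2)^2` (`hP.sub`; `AD.sub_sq` (`AD/F/PotA`) translated by `z`; `Sub.rpow` and `Sub.mul`), so `c ≤ 0` (`Sub.not_isLocalMax`).
With `hP.le_fs` (tangent vector: `Cv.tan`): `fs^m ≥ p / C` at `ζ₀`, so with `P₀ = p(ζ₀)^(1/m)`, `C' = C^(1/m)`: `P₀^2 ≤ C'^2 (2 C H^2 + 2 m t^2/(t^2 - ‖ζ₀ - z‖^2)^2)` and
`(w ζ₀)^(2/m) ≤ C'^2 (2 C H^2 t^4 + 2 m t^2)`, `w ζ₀ ≥ w z = pf p F z * t^(2 m)`: `(pf p F z)^(2/m) ≤ C'^2 (2 C H^2 + 2 m / t^2)`.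
`C₁` depends only on `C` and `m`.
-/

set_option autoImplicit false

open Topology Filter Metric

namespace Pool.Agent.G3

open Pool.Agent.H36.BP (EN fs wd Sub)
open Pool.Agent.H14.PP (IsCone CurveAt Tan)
open Pool.Agent.H62.EF (MN pr)
open Pool.Agent.AD (Vd)
open Pool.Agent.TG (TMap Gd)

variable {N k : ℕ} {X : Set (EN N)} {Λ : AddSubgroup (Vd (k + 1))} {u : EN N → Vd (k + 1)} {D : Set (Vd (k + 1))} {p : EN N → EN N → ℝ} {m : ℕ} {C : ℝ}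

private theorem ahl_shift {v : ℂ → ℝ} {z₀ a : ℂ} {c : ℝ} (h : Sub v (z₀ - a) c) : Sub (fun z => v (z - a)) z₀ c := by
  refine ⟨h.1, fun c' hc' => ?_⟩
  obtain ⟨g, hg, hg0, hge⟩ := h.2 c' hc'
  have h1 : AnalyticAt ℂ (fun z : ℂ => z - a) z₀ := analyticAt_id.sub analyticAt_const
  refine ⟨fun z => g (z - a), hg.comp_of_eq h1 rfl, hg0, ?_⟩
  have h2 : Tendsto (fun z : ℂ => z - a) (𝓝 z₀) (𝓝 (z₀ - a)) := h1.continuousAt
  filter_upwards [h2.eventually hge] with z hz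
  have e : z - a - (z₀ - a) = z - z₀ := by ring
  rwa [e] at hz

private theorem ahl_fs_nonneg (x v : EN N) : 0 ≤ fs x v := div_nonneg (Real.sqrt_nonneg _) (by positivity)

theorem ahl (hP : PS X Λ u D p m C) : ∃ C₁ : ℝ, 0 < C₁ ∧ ∀ (F : ℂ → EN N) (h : ℂ → Vd (k + 1)) (z : ℂ) (r H : ℝ), 0 < r → 0 ≤ H →
    Cv X Λ u (ball z r) F h → (∀ w ∈ ball z r, ‖deriv h w‖ ≤ H) → pf p F z ≤ (C₁ * (1 / r + H)) ^ m := by
  have hC : 1 ≤ C := hP.C_ge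
  have hm : 1 ≤ m := hP.m_pos
  have hmR : (1 : ℝ) ≤ m := by exact_mod_cast hm
  refine ⟨C * (2 * C + 8 * m), by positivity, fun F h z r H hr hH hF hbd => ?_⟩
  obtain ⟨t, ht⟩ : ∃ t : ℝ, t = r / 2 := ⟨_, rfl⟩
  have ht0 : 0 < t := by rw [ht]; linarith only [hr]
  have hsub : closedBall z t ⊆ ball z r := closedBall_subset_ball (by rw [ht]; linarith only [hr])
  obtain ⟨w, hw⟩ : ∃ w : ℂ → ℝ, w = fun ζ => pf p F ζ * (t ^ 2 - ‖ζ - z‖ ^ 2) ^ m := ⟨_, rfl⟩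
  have hwc : ContinuousOn w (closedBall z t) := by
    rw [hw]
    refine ((hP.cont _ F h isOpen_ball hF).mono hsub).mul ?_
    fun_prop
  obtain ⟨ζ₀, hζ₀, hmax⟩ := (isCompact_closedBall z t).exists_isMaxOn ⟨z, mem_closedBall_self ht0.le⟩ hwc
  have hwz : w z = pf p F z * (t ^ 2) ^ m := by
    rw [hw]
    simp
  have hle : w z ≤ w ζ₀ := hmax (mem_closedBall_self ht0.le)
  have hR0 : 0 ≤ 1 / r + H := by positivity
  have ht2 : 0 < (t ^ 2) ^ m := by positivity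
  rcases le_or_gt (w ζ₀) 0 with h0 | h0
  · have h1 : pf p F z ≤ 0 := by
      have h2 : pf p F z * (t ^ 2) ^ m ≤ 0 := by
        rw [← hwz]
        exact hle.trans h0
      by_contra h3
      push Not at h3
      have := mul_pos h3 ht2
      linarith only [hwz, hle, h0, this]
    exact h1.trans (by positivity)
  have hd0 : ‖ζ₀ - z‖ ≤ t := by rw [← dist_eq_norm]; exact hζ₀
  have hp0 : 0 ≤ pf p F ζ₀ := hP.nonneg _ _
  have hwζ : w ζ₀ = pf p F ζ₀ * (t ^ 2 - ‖ζ₀ - z‖ ^ 2) ^ m := by rw [hw]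
  have hlt : ‖ζ₀ - z‖ < t := by
    refine lt_of_le_of_ne hd0 fun h1 => ?_
    rw [hwζ, h1, sub_self, zero_pow (by omega), mul_zero] at h0
    exact lt_irrefl _ h0
  obtain ⟨δ, hδ⟩ : ∃ δ : ℝ, δ = t ^ 2 - ‖ζ₀ - z‖ ^ 2 := ⟨_, rfl⟩
  have hδ0 : 0 < δ := by
    rw [hδ]
    have := norm_nonneg (ζ₀ - z)
    nlinarith only [ht0, hlt, hd0, this]
  have hδt : δ ≤ t ^ 2 := by
    rw [hδ]
    have := sq_nonneg ‖ζ₀ - z‖
    linarith only [this]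
  have hpos : 0 < pf p F ζ₀ := by
    rcases hp0.eq_or_lt with h1 | h1
    · rw [hwζ, ← h1, zero_mul] at h0
      exact absurd h0 (lt_irrefl _)
    · exact h1
  have hζU : ζ₀ ∈ ball z r := hsub hζ₀
  obtain ⟨f, hf⟩ : ∃ f : ℝ, f = fs (F ζ₀) (deriv F ζ₀) := ⟨_, rfl⟩
  have hf0 : 0 ≤ f := by rw [hf]; exact ahl_fs_nonneg _ _
  have hs1 := hP.sub _ F h isOpen_ball hF ζ₀ hζU hpos
  have hs2 : Sub (fun ζ : ℂ => t ^ 2 - ‖ζ - z‖ ^ 2) ζ₀ (-(t ^ 2 / (t ^ 2 - ‖ζ₀ - z‖ ^ 2) ^ 2)) :=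
    ahl_shift (v := fun ζ : ℂ => t ^ 2 - ‖ζ‖ ^ 2) (Pool.Agent.AD.F.sub_sq hlt)
  have hs3 := hs1.mul (hs2.rpow (r := (m : ℝ)) (by positivity))
  have hs4 := hs3.congr (v := w) (Filter.Eventually.of_forall fun ζ => by
    rw [hw]
    show pf p F ζ * (t ^ 2 - ‖ζ - z‖ ^ 2) ^ (m : ℝ) = _
    rw [Real.rpow_natCast])
  have hloc : IsLocalMax w ζ₀ := by
    have h1 : ball z t ∈ 𝓝 ζ₀ := isOpen_ball.mem_nhds (by rw [mem_ball, dist_eq_norm]; exact hlt)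
    filter_upwards [h1] with ζ hζ
    exact hmax (ball_subset_closedBall hζ)
  have hneg : fs (F ζ₀) (deriv F ζ₀) ^ 2 / 2 - C * ‖deriv h ζ₀‖ ^ 2 + (m : ℝ) * -(t ^ 2 / (t ^ 2 - ‖ζ₀ - z‖ ^ 2) ^ 2) ≤ 0 := by
    by_contra h1
    push Not at h1
    exact hs4.not_isLocalMax h1 hloc
  rw [← hδ, ← hf] at hneg
  have hh : ‖deriv h ζ₀‖ ^ 2 ≤ H ^ 2 := by
    have h1 := hbd ζ₀ hζU
    have h2 := norm_nonneg (deriv h ζ₀)
    nlinarith only [hH, h1, h2]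
  have h5 : f ^ 2 ≤ 2 * C * H ^ 2 + 2 * m * (t ^ 2 / δ ^ 2) := by
    have h6 : C * ‖deriv h ζ₀‖ ^ 2 ≤ C * H ^ 2 := mul_le_mul_of_nonneg_left hh (by linarith only [hC])
    nlinarith only [hneg, h6]
  have h6 : (f * δ) ^ 2 ≤ 2 * C * H ^ 2 * (t ^ 2) ^ 2 + 2 * m * t ^ 2 := by
    have h7 : f ^ 2 * δ ^ 2 ≤ (2 * C * H ^ 2 + 2 * m * (t ^ 2 / δ ^ 2)) * δ ^ 2 := mul_le_mul_of_nonneg_right h5 (by positivity)
    have h8 : (2 * C * H ^ 2 + 2 * m * (t ^ 2 / δ ^ 2)) * δ ^ 2 = 2 * C * H ^ 2 * δ ^ 2 + 2 * m * t ^ 2 := by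
      field_simp
    have h9 : 2 * C * H ^ 2 * δ ^ 2 ≤ 2 * C * H ^ 2 * (t ^ 2) ^ 2 := by
      refine mul_le_mul_of_nonneg_left ?_ (by positivity)
      nlinarith only [hδ, hδ0]
    rw [mul_pow]
    linarith only [h7, h8, h9]
  obtain ⟨A, hA⟩ : ∃ A : ℝ, A = 2 * C + 8 * m := ⟨_, rfl⟩
  have hA1 : 1 ≤ A := by rw [hA]; linarith only [hC, hmR]
  have h7 : 2 * C * H ^ 2 * (t ^ 2) ^ 2 + 2 * m * t ^ 2 ≤ (t ^ 2 * (A * (1 / r + H))) ^ 2 := by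
    have e1 : 2 * (m : ℝ) * t ^ 2 = 8 * m * (1 / r) ^ 2 * (t ^ 2) ^ 2 := by
      rw [ht]
      field_simp
      ring
    rw [e1]
    have e2 : (t ^ 2 * (A * (1 / r + H))) ^ 2 = A ^ 2 * (1 / r + H) ^ 2 * (t ^ 2) ^ 2 := by ring
    rw [e2, ← add_mul]
    refine mul_le_mul_of_nonneg_right ?_ (by positivity)
    have e3 : 0 ≤ 1 / r := by positivity
    have e4 : A ≤ A ^ 2 := by nlinarith only [hC, hmR, hA]
    have e5 : A * (1 / r + H) ^ 2 ≤ A ^ 2 * (1 / r + H) ^ 2 := mul_le_mul_of_nonneg_right e4 (by positivity)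
    refine le_trans ?_ e5
    rw [hA]
    have e6 : H ^ 2 ≤ (1 / r + H) ^ 2 := by nlinarith only [hH, e3]
    have e7 : (1 / r) ^ 2 ≤ (1 / r + H) ^ 2 := by nlinarith only [hH, hR0, e3]
    have e8 : 2 * C * H ^ 2 ≤ 2 * C * (1 / r + H) ^ 2 := mul_le_mul_of_nonneg_left e6 (by linarith only [hC])
    have e9 : 8 * (m : ℝ) * (1 / r) ^ 2 ≤ 8 * m * (1 / r + H) ^ 2 := mul_le_mul_of_nonneg_left e7 (by positivity)
    linarith only [e8, e9]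
  have hB0 : 0 ≤ t ^ 2 * (A * (1 / r + H)) := by positivity
  have h8 : f * δ ≤ t ^ 2 * (A * (1 / r + H)) := by
    refine (sq_le_sq₀ (by positivity) hB0).1 (h6.trans h7)
  have h9 : pf p F ζ₀ ≤ C * f ^ m := by
    rw [hf]
    exact hP.le_fs _ (hF.mem ζ₀ hζU) _ (hF.tan isOpen_ball hζU)
  have h10 : w ζ₀ ≤ C * (t ^ 2 * (A * (1 / r + H))) ^ m := by
    rw [hwζ, ← hδ]
    calc pf p F ζ₀ * δ ^ m ≤ C * f ^ m * δ ^ m := mul_le_mul_of_nonneg_right h9 (by positivity)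
      _ = C * (f * δ) ^ m := by rw [mul_pow]; ring
      _ ≤ C * (t ^ 2 * (A * (1 / r + H))) ^ m :=
        mul_le_mul_of_nonneg_left (pow_le_pow_left₀ (by positivity) h8 m) (by linarith only [hC])
  have h11 : pf p F z * (t ^ 2) ^ m ≤ C * (A * (1 / r + H)) ^ m * (t ^ 2) ^ m := by
    rw [← hwz]
    refine (hle.trans h10).trans (le_of_eq ?_)
    rw [mul_pow (t ^ 2) (A * (1 / r + H)) m]
    ring
  have h12 := le_of_mul_le_mul_right h11 ht2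
  refine h12.trans ?_
  rw [← hA, mul_assoc C A, mul_pow C]
  refine mul_le_mul_of_nonneg_right ?_ (by positivity)
  exact le_self_pow₀ hC (by omega)

end Pool.Agent.G3
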